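import Pool.Agent.Helper40.LPA.Trace
import Pool.Agent.Helper58.LU.Trace
import Pool.Agent.Helper87.MX.Fr3
import Pool.Agent.Helper87.MX.FinalSt5

/-!
# MixingRates, version 5: clause (B) of the final statement

`G` is the group generated by `x ↦ 2x`, `x ↦ 3x`, `x ↦ x + 1`, `τ` is the translation by one.
-/

set_option autoImplicit false
open scoped ComplexOrder
open Filter MeasureTheory Finset Helper17.FU Helper17.FUGroup Helper91.TTT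

namespace Pool.Agent.Helper15.MX5

open Pool.Agent.Helper87.MX
open Pool.Agent.Helper87.MX.FinalSt5 (traces condSpan IsMeasureOf cost)

/-- the measure of an extreme trace is invariant -/
theorem inv_of_extreme (s2 s3 t : Equiv.Perm ℚ) (h2 : ∀ x : ℚ, s2 x = 2 * x)
    (h3 : ∀ x : ℚ, s3 x = 3 * x) (ht : ∀ x : ℚ, t x = x + 1)
    (G : Subgroup (Equiv.Perm ℚ)) (hG : G = Subgroup.closure {s2, s3, t})
    (τ : G) (hτ : (τ : Equiv.Perm ℚ) = t) (φ : G → ℂ)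
    (hφ : φ ∈ Set.extremePoints ℝ (traces G))
    (μ : Measure (AddCircle (1 : ℝ))) (hμ : IsMeasureOf τ φ μ) : Inv 2 μ ∧ Inv 3 μ := by
  subst hG
  have hφ' : φ ∈ Set.extremePoints ℝ (TR (GG s2 s3 t)) := hφ
  obtain ⟨μ', hμ'p, hμ', hm2, hm3⟩ := Pool.Agent.Helper40.TMA.exists_measure h2 h3 ht hτ hφ'
  have hp := hμ.1
  have h5 : μ = μ' := by
    apply Helper17.TranslM.eq_of_fourier
    intro m
    rw [hμ' m]
    exact hμ.2 m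
  rw [h5]
  exact ⟨hm2, hm3⟩

/-- large dimension means small atoms -/
theorem small_atoms (s2 s3 t : Equiv.Perm ℚ) (h2 : ∀ x : ℚ, s2 x = 2 * x)
    (h3 : ∀ x : ℚ, s3 x = 3 * x) (ht : ∀ x : ℚ, t x = x + 1)
    (G : Subgroup (Equiv.Perm ℚ)) (hG : G = Subgroup.closure {s2, s3, t})
    (τ : G) (hτ : (τ : Equiv.Perm ℚ) = t) (c : ℝ) (hc : 0 < c) :
    ∃ D : ℕ, ∀ φ : G → ℂ, φ ∈ Set.extremePoints ℝ (traces G) →
      (D : Cardinal) < Module.rank ℂ (condSpan G φ) →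
      ∀ μ : Measure (AddCircle (1 : ℝ)), IsMeasureOf τ φ μ → ∀ x, μ.real {x} < c := by
  refine ⟨6 ^ ⌊1 / c⌋₊, fun φ hφ hD μ hμ x => ?_⟩
  by_contra hcon
  push Not at hcon
  obtain ⟨hm2, hm3⟩ := inv_of_extreme s2 s3 t h2 h3 ht G hG τ hτ φ hφ μ hμ
  subst hG
  have hp := hμ.1
  exact absurd (Helper58.LU.rank_of_atom h2 h3 ht hτ hφ hμ.2 hm2 hm3 hc hcon) (not_le.2 hD)

/-- **(B)** -/
theorem clause_B (hUN : S_UNo) (s2 s3 t : Equiv.Perm ℚ) (h2 : ∀ x : ℚ, s2 x = 2 * x)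
    (h3 : ∀ x : ℚ, s3 x = 3 * x) (ht : ∀ x : ℚ, t x = x + 1)
    (G : Subgroup (Equiv.Perm ℚ)) (hG : G = Subgroup.closure {s2, s3, t})
    (τ : G) (hτ : (τ : Equiv.Perm ℚ) = t) :
    ∃ a : ℝ, 0 < a ∧ ∀ j₁ : ℕ, ∃ D : ℕ,
    ∀ φ : G → ℂ, φ ∈ Set.extremePoints ℝ (traces G) →
      (D : Cardinal) < Module.rank ℂ (condSpan G φ) →
      ∀ μ : Measure (AddCircle (1 : ℝ)), IsMeasureOf τ φ μ →
      ∀ P : ℕ → AddCircle (1 : ℝ) → ℂ, (∀ j, FinalSt5.OddLip j (P j)) →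
        ∃ J : ℕ, a < ∑ j ∈ Ico j₁ J, cost μ (P j) / Real.log ((j : ℝ) + 2) := by
  obtain ⟨a, ha, h⟩ := hUN
  refine ⟨a, ha, fun j₁ => ?_⟩
  obtain ⟨δ, hδ, hj⟩ := h j₁
  obtain ⟨D, hD⟩ := small_atoms s2 s3 t h2 h3 ht G hG τ hτ δ hδ
  refine ⟨D, fun φ hφ hdim μ hμ P hP => ?_⟩
  obtain ⟨hm2, hm3⟩ := inv_of_extreme s2 s3 t h2 h3 ht G hG τ hτ φ hφ μ hμ
  exact hj μ hμ.1 hm2 hm3 (hD φ hφ hdim μ hμ) P hP

end Pool.Agent.Helper15.MX5
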