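import Pool.Agent.Helper87.MX.Fr

/-!
# MixingRates, piece W4: the entropy inequality for one character and windows
-/

set_option autoImplicit false

open MeasureTheory Finset Filter

namespace Pool.Agent.Helper15.MX

open Pool.Agent.Helper87.MX
open Pool.Agent.Helper25.MX (psi)

theorem continuous_wav (k : ℕ) (F : Finset (ℕ × ℕ)) : Continuous (wav k F) := by
  unfold wav
  exact (continuous_finsetSum _ fun p _ => (fourier _).continuous).div_const _

theorem s_W4 (h1 : S_W1) (h2 : S_W2) (h3 : S_W3a) (h4 : S_W3b) : S_W4 := by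
  intro μ hμ η k c F hk hc hη hp hF K J hKJ
  have hk0 : (0 : ℝ) < k := by exact_mod_cast hk
  have hr : ∀ j : ℕ, (0 : ℝ) < 1 / (2 * k * 4 ^ j) := fun j => by positivity
  have step : ∀ j : ℕ, phi μ (1 / (2 * k * 4 ^ (j + 1))) ≤ phi μ (1 / (2 * k * 4 ^ j)) +
      psi (μ.real {x | ‖c‖ / 8 ≤ ‖wav k (F j) x - c‖}) := by
    intro j
    have e1 : (1 : ℝ) / (2 * k * 4 ^ (j + 1)) = 1 / (2 * k * 4 ^ j) / 4 := by
      rw [pow_succ]
      field_simp
    have hG : {x : Tor | ‖wav k (F j) x - c‖ < ‖c‖ / 8}ᶜ =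
        {x | ‖c‖ / 8 ≤ ‖wav k (F j) x - c‖} := by
      ext x
      simp
    have := h2 μ hμ (1 / (2 * k * 4 ^ j)) {x | ‖wav k (F j) x - c‖ < ‖c‖ / 8} (hr j)
      (isOpen_lt ((continuous_wav k (F j)).sub continuous_const).norm
        continuous_const).measurableSet
      (fun x hx y hy hxy => by
        rw [← e1]
        exact h1 η k j c (F j) hk hc hη hp (hF j) x y hx hy hxy)
    rwa [hG, ← e1] at this
  have tel : ∀ J : ℕ, phi μ (1 / (2 * k * 4 ^ J)) ≤ phi μ (1 / (2 * k)) +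
      ∑ j ∈ range J, psi (μ.real {x | ‖c‖ / 8 ≤ ‖wav k (F j) x - c‖}) := by
    intro J
    induction J with
    | zero => simp
    | succ J ih =>
      rw [sum_range_succ]
      have := step J
      linarith
  have h5 := h4 μ hμ (1 / (2 * k * 4 ^ J)) K (hr J) (by
    rw [div_mul_eq_mul_div, one_mul, div_le_one (by positivity)]
    have h6 : (2 : ℝ) ^ K ≤ 4 ^ J := by
      calc (2 : ℝ) ^ K ≤ 2 ^ (2 * J) := pow_le_pow_right₀ (by norm_num) hKJ
        _ = 4 ^ J := by rw [pow_mul]; norm_num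
    have h7 : (1 : ℝ) ≤ k := by exact_mod_cast hk
    nlinarith [pow_pos (show (0 : ℝ) < 4 by norm_num) J])
  have h6 := h3 μ hμ k hk
  have h7 := tel J
  have h8 : Real.log 3 ≤ 2 := by
    have := Real.log_le_sub_one_of_pos (show (0 : ℝ) < 3 by norm_num)
    linarith
  linarith

end Pool.Agent.Helper15.MX
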